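import Mathlib
import Pool.Agent.TH335.RF.P4
import Pool.Agent.TH335.RF.P6
set_option autoImplicit false

/-! The main estimate. -/

namespace Pool.Agent.TH335.RF

open MeasureTheory Set Complex
open scoped ENNReal RealInnerProductSpace
open Pool.Agent.H789R2.FR (E sg T)
open Pool.Agent.H438R2.BR (Phi J J_mp)
open Pool.Agent.H438R2.PD (P1 P2 P2_meas ten hh T_meas')

variable {m : ℕ}

theorem exp_bdd (y' y : E m) : ‖Complex.exp (-((⟪y', y⟫ : ℝ) : ℂ) * I)‖ = 1 := by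
  rw [show -((⟪y', y⟫ : ℝ) : ℂ) * I = ((-⟪y', y⟫ : ℝ) : ℂ) * I by push_cast; ring,
    Complex.norm_exp_ofReal_mul_I]

theorem AA_int (k : ℕ) (hk : 2 ≤ k) (F : E m → ℂ) (hFm : Measurable F)
    (hF : ∀ y, ‖F y‖ ≤ 1) (r : ℝ) (y : E m) :
    IntegrableOn (fun y' => AA k F r y' * Complex.exp (-((⟪y', y⟫ : ℝ) : ℂ) * I))
      (Metric.ball (0 : E m) 1) := by
  refine Measure.integrableOn_of_bounded (M := (sg (k - 1)).real univ * Real.pi)
    ball_fin ?_ ?_
  · have h1 : Measurable fun y' : E m => Complex.exp (-((⟪y', y⟫ : ℝ) : ℂ) * I) := by fun_prop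
    exact ((AA_meas k F hFm r).mul h1).aestronglyMeasurable
  · refine Filter.Eventually.of_forall fun y' => ?_
    rw [norm_mul, exp_bdd, mul_one]
    exact AA_le k hk F hF r y'

theorem decomp (k : ℕ) (hk : 2 ≤ k) (hm : 1 ≤ m) (c : ℂ) (F : E m → ℂ) (hFm : Measurable F)
    (hF : ∀ y, ‖F y‖ ≤ 1) (r : ℝ) (hr : 0 < r) (y : E m) :
    FB (AA k F r) y = (((sg (k - 1)).real univ * r ^ (-((k : ℝ) - 1) / 2) : ℝ) : ℂ) *
      (c * Gf k F (-r) y + (starRingEnd ℂ) c * Gf k F r y) + FB (EA k c F r) y := by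
  set σ : ℝ := (sg (k - 1)).real univ with hσ
  set s : ℝ := r ^ (-((k : ℝ) - 1) / 2) with hs
  set e : E m → ℂ := fun y' => Complex.exp (-((⟪y', y⟫ : ℝ) : ℂ) * I) with he
  have h1 : ∀ y' ∈ Metric.ball (0 : E m) 1, EA k c F r y' * e y' = AA k F r y' * e y' -
      (((σ * s : ℝ) : ℂ) * (c * (MA k F (-r) y' * e y') +
        (starRingEnd ℂ) c * (MA k F r y' * e y'))) := by
    intro y' hy'
    have hw := wt_pos hy'
    have e1 : wt y' ^ (k - 2) * (r * wt y') ^ (-((k : ℝ) - 1) / 2) =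
        s * wt y' ^ (((k : ℝ) - 3) / 2) := by
      rw [Real.mul_rpow hr.le hw.le, ← Real.rpow_natCast (wt y') (k - 2), hs]
      have e2 : wt y' ^ (((k - 2 : ℕ) : ℝ)) * wt y' ^ (-((k : ℝ) - 1) / 2) =
          wt y' ^ (((k : ℝ) - 3) / 2) := by
        rw [← Real.rpow_add hw]
        congr 1
        push_cast [Nat.cast_sub hk]
        ring
      rw [← e2]
      ring
    have e3 : ((wt y' ^ (k - 2) : ℝ) : ℂ) * (((r * wt y') ^ (-((k : ℝ) - 1) / 2) : ℝ) : ℂ) =
        ((s : ℝ) : ℂ) * ((wt y' ^ (((k : ℝ) - 3) / 2) : ℝ) : ℂ) := by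
      exact_mod_cast e1
    unfold EA AA MA mt
    rw [show -(-r * wt y') = r * wt y' by ring]
    rw [show -(((r * wt y' : ℝ) : ℂ) * I) = ((-(r * wt y') : ℝ) : ℂ) * I by push_cast; ring]
    rw [Complex.ofReal_mul σ s]
    linear_combination (-(σ : ℂ) * (c * Complex.exp (((r * wt y' : ℝ) : ℂ) * I) +
      (starRingEnd ℂ) c * Complex.exp (((-(r * wt y') : ℝ) : ℂ) * I)) * F y' * e y') * e3
  have iA := AA_int k hk F hFm hF r y
  have i1 := MA_int k hk hm F hFm hF (-r) y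
  have i2 := MA_int k hk hm F hFm hF r y
  have h2 : FB (EA k c F r) y = FB (AA k F r) y - (((σ * s : ℝ) : ℂ) *
      (c * Gf k F (-r) y + (starRingEnd ℂ) c * Gf k F r y)) := by
    unfold Gf FB
    rw [setIntegral_congr_fun measurableSet_ball h1]
    have i3 : IntegrableOn (fun y' => c * (MA k F (-r) y' * e y')) (Metric.ball (0 : E m) 1) :=
      i1.const_mul c
    have i4 : IntegrableOn (fun y' => (starRingEnd ℂ) c * (MA k F r y' * e y'))
      (Metric.ball (0 : E m) 1) := i2.const_mul _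
    have i5 : IntegrableOn (fun y' => c * (MA k F (-r) y' * e y') +
        (starRingEnd ℂ) c * (MA k F r y' * e y')) (Metric.ball (0 : E m) 1) := i3.add i4
    rw [integral_sub iA (i5.const_mul _), integral_const_mul, integral_add i3 i4,
      integral_const_mul, integral_const_mul]
  rw [h2]
  ring

/-- pointwise bound -/
theorem decomp_le (k : ℕ) (hk : 2 ≤ k) (hm : 1 ≤ m) (c : ℂ) : ∃ C : ℝ, 0 < C ∧
    ∀ (F : E m → ℂ), Measurable F → (∀ y, ‖F y‖ ≤ 1) → ∀ (r : ℝ), 0 < r → ∀ (y : E m),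
    ‖FB (AA k F r) y‖ₑ ≤ ENNReal.ofReal (C * r ^ (-((k : ℝ) - 1) / 2)) *
      (‖Gf k F (-r) y‖ₑ + ‖Gf k F r y‖ₑ) + ‖FB (EA k c F r) y‖ₑ := by
  set σ : ℝ := (sg (k - 1)).real univ with hσ
  have hσ0 : 0 < σ := Pool.Agent.H438R2.BR.T7.sg_pos (by omega)
  refine ⟨σ * (‖c‖ + 1), by positivity, fun F hFm hF r hr y => ?_⟩
  have hs : 0 < r ^ (-((k : ℝ) - 1) / 2) := Real.rpow_pos_of_pos hr _
  rw [decomp k hk hm c F hFm hF r hr y]
  refine (enorm_add_le _ _).trans ?_
  gcongr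
  rw [enorm_mul]
  have h1 : ‖(((sg (k - 1)).real univ * r ^ (-((k : ℝ) - 1) / 2) : ℝ) : ℂ)‖ₑ =
      ENNReal.ofReal (σ * r ^ (-((k : ℝ) - 1) / 2)) := by
    rw [← ofReal_norm, Complex.norm_real, Real.norm_of_nonneg (by positivity)]
  have h2 : ‖c * Gf k F (-r) y + (starRingEnd ℂ) c * Gf k F r y‖ₑ ≤
      ENNReal.ofReal (‖c‖ + 1) * (‖Gf k F (-r) y‖ₑ + ‖Gf k F r y‖ₑ) := by
    refine (enorm_add_le _ _).trans ?_
    rw [enorm_mul, enorm_mul, mul_add]
    have h3 : ‖c‖ₑ ≤ ENNReal.ofReal (‖c‖ + 1) := by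
      rw [← ofReal_norm]
      exact ENNReal.ofReal_le_ofReal (by linarith)
    have h4 : ‖(starRingEnd ℂ) c‖ₑ ≤ ENNReal.ofReal (‖c‖ + 1) := by
      rw [← ofReal_norm, RCLike.norm_conj]
      exact ENNReal.ofReal_le_ofReal (by linarith)
    gcongr
  rw [h1]
  calc ENNReal.ofReal (σ * r ^ (-((k : ℝ) - 1) / 2)) *
        ‖c * Gf k F (-r) y + (starRingEnd ℂ) c * Gf k F r y‖ₑ
      ≤ ENNReal.ofReal (σ * r ^ (-((k : ℝ) - 1) / 2)) *
        (ENNReal.ofReal (‖c‖ + 1) * (‖Gf k F (-r) y‖ₑ + ‖Gf k F r y‖ₑ)) := by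
        gcongr
    _ = _ := by
        rw [← mul_assoc, ← ENNReal.ofReal_mul (by positivity)]
        congr 2
        ring

theorem three (a b c : ℝ≥0∞) (q : ℝ) (hq : 0 ≤ q) :
    (a + b + c) ^ q ≤ 3 ^ q * (a ^ q + b ^ q + c ^ q) := by
  have h1 : a + b + c ≤ 3 * max a (max b c) := by
    have ha : a ≤ max a (max b c) := le_max_left _ _
    have hb : b ≤ max a (max b c) := (le_max_left _ _).trans (le_max_right _ _)
    have hc : c ≤ max a (max b c) := (le_max_right _ _).trans (le_max_right _ _)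
    calc a + b + c ≤ max a (max b c) + max a (max b c) + max a (max b c) := by gcongr
      _ = _ := by ring
  refine (ENNReal.rpow_le_rpow h1 hq).trans ?_
  rw [ENNReal.mul_rpow_of_nonneg _ _ hq]
  gcongr
  rcases le_total a (max b c) with h | h
  · rw [max_eq_right h]
    rcases le_total b c with h' | h'
    · rw [max_eq_right h']
      exact le_add_self
    · rw [max_eq_left h', add_right_comm]
      exact le_add_self
  · rw [max_eq_left h, add_assoc]
    exact le_self_add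

theorem pow_int (s : ℝ) (hs : 1 < s) :
    ∫⁻ r in Ioi (1 : ℝ), ENNReal.ofReal (r ^ (-s)) = ENNReal.ofReal (1 / (s - 1)) := by
  have h1 := integrableOn_Ioi_rpow_of_lt (a := -s) (by linarith) (one_pos (α := ℝ))
  rw [← ofReal_integral_eq_lintegral_ofReal h1]
  · rw [integral_Ioi_rpow_of_lt (by linarith) one_pos, Real.one_rpow]
    congr 1
    rw [show -s + 1 = -(s - 1) by ring, neg_div_neg_eq]
  · filter_upwards [ae_restrict_mem measurableSet_Ioi] with r hr
    have : (1 : ℝ) < r := hr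
    positivity

/-- hypothesis on the main term -/
def Hyp (k m : ℕ) (P : ℝ) : Prop := ∀ δ : ℝ, 0 < δ → ∃ C : ℝ, 0 < C ∧ ∀ (F : E m → ℂ),
  Measurable F → (∀ y, ‖F y‖ ≤ 1) → ∀ s : ℝ, (s = 1 ∨ s = -1) →
  ∫⁻ r in Ioi (1 : ℝ), ENNReal.ofReal (r ^ (-δ)) * ∫⁻ y : E m, ‖Gf k F (s * r) y‖ₑ ^ P ≤
    ENNReal.ofReal C

theorem main_term (k : ℕ) (hk : 2 ≤ k) (hm : 1 ≤ m) (P q : ℝ) (hq : 2 < q) (hqP : q < P)
    (hyp : Hyp k m P) (h : 1 < (q - 2) * (((k : ℝ) - 1) / 2 + 1 / (P - 2))) :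
    ∃ C : ℝ, 0 < C ∧ ∀ (F : E m → ℂ), Measurable F → (∀ y, ‖F y‖ ≤ 1) →
    ∀ s : ℝ, (s = 1 ∨ s = -1) →
    ∫⁻ r in Ioi (1 : ℝ), ENNReal.ofReal (r ^ (-(((k : ℝ) - 1) * (q / 2 - 1)))) *
      ∫⁻ y : E m, ‖Gf k F (s * r) y‖ₑ ^ q ≤ ENNReal.ofReal C := by
  have hP2 : 0 < P - 2 := by linarith
  set t : ℝ := (q - 2) / (P - 2) with ht
  have ht0 : 0 < t := div_pos (by linarith) hP2
  have ht1 : t < 1 := by rw [ht, div_lt_one hP2]; linarith
  set β : ℝ := ((k : ℝ) - 1) * (q / 2 - 1) with hβ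
  have hε : 0 < β - (1 - t) := by
    have : (q - 2) * (((k : ℝ) - 1) / 2 + 1 / (P - 2)) = β + t := by
      rw [hβ, ht]; ring
    rw [this] at h
    linarith
  set δ : ℝ := (β - (1 - t)) / (2 * t) with hδ
  have hδ0 : 0 < δ := by positivity
  have h1t : 0 < 1 - t := by linarith
  set a : ℝ := (β - (β - (1 - t)) / 2) / (1 - t) with ha
  have ha1 : 1 < a := by
    rw [ha, lt_div_iff₀ h1t]
    linarith
  obtain ⟨C1, hC1, h1⟩ := hyp δ hδ0
  obtain ⟨C2, hC2, h2⟩ := Gf_L2 (m := m) k hk hm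
  refine ⟨(C2 * (1 / (a - 1))) ^ (1 - t) * C1 ^ t, ?_, ?_⟩
  · have : 0 < a - 1 := by linarith
    positivity
  intro F hFm hF s hs
  have hGm : Measurable (Function.uncurry fun (r : ℝ) (y : E m) => ‖Gf k F (s * r) y‖ₑ) := by
    have hg := Gf_meas k F hFm
    have hp : Measurable fun p : ℝ × E m => ((s * p.1, p.2) : ℝ × E m) :=
      (measurable_fst.const_mul s).prodMk measurable_snd
    have h3 := Measurable.comp hg hp
    exact h3.enorm
  have hint := interp (volume : Measure (E m)) (fun (r : ℝ) (y : E m) => ‖Gf k F (s * r) y‖ₑ)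
    hGm a δ P q t β ht0 ht1 (by rw [ht]; field_simp; ring) (by
      rw [ha, hδ]
      field_simp
      ring) (by linarith)
  refine hint.trans ?_
  rw [ENNReal.ofReal_mul (by
    have : 0 < a - 1 := by linarith
    positivity), ← ENNReal.ofReal_rpow_of_nonneg (by
    have : 0 < a - 1 := by linarith
    positivity) h1t.le, ← ENNReal.ofReal_rpow_of_nonneg hC1.le ht0.le]
  gcongr
  · calc ∫⁻ r in Ioi (1 : ℝ), ENNReal.ofReal (r ^ (-a)) * ∫⁻ y : E m, ‖Gf k F (s * r) y‖ₑ ^ (2 : ℝ)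
        ≤ ∫⁻ r in Ioi (1 : ℝ), ENNReal.ofReal (r ^ (-a)) * ENNReal.ofReal C2 := by
          apply lintegral_mono
          intro r
          simp only
          gcongr
          exact h2 F hFm hF (s * r)
      _ = _ := by
          rw [lintegral_mul_const' _ _ ENNReal.ofReal_ne_top, pow_int a ha1, mul_comm,
            ← ENNReal.ofReal_mul hC2.le]
  · exact h1 F hFm hF s hs

/-- the main estimate -/
theorem main (k : ℕ) (hk : 2 ≤ k) (hm : 1 ≤ m) (P q : ℝ) (hq : 2 < q) (hqP : q < P)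
    (hyp : Hyp k m P) (h : 1 < (q - 2) * (((k : ℝ) - 1) / 2 + 1 / (P - 2))) :
    ∃ C : ℝ, 0 < C ∧ ∀ (F : E m → ℂ), Measurable F → (∀ y, ‖F y‖ ≤ 1) →
    ∫⁻ z, ‖T (fun z : E (k + m) => F (P2 k m z)) z‖ₑ ^ q ≤ ENNReal.ofReal C := by
  have hk' : (2 : ℝ) ≤ k := by exact_mod_cast hk
  have hq0 : 0 < q := by linarith
  obtain ⟨c, CE, hCE, hE⟩ := EA_L2 (m := m) k hk hm
  obtain ⟨CD, hCD, hD⟩ := decomp_le (m := m) k hk hm c
  obtain ⟨CM, hCM, hM⟩ := main_term (m := m) k hk hm P q hq hqP hyp h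
  obtain ⟨CP, hCP, hP⟩ := FB_Lp m q hq.le
  set σ : ℝ := (sg (k - 1)).real univ with hσ
  have hσ0 : 0 < σ := Pool.Agent.H438R2.BR.T7.sg_pos (by omega)
  set vB : ℝ := volume.real (Metric.ball (0 : E m) 1) with hvB
  have hvB0 : 0 ≤ vB := measureReal_nonneg
  have hvol : volume (Metric.ball (0 : E m) 1) = ENNReal.ofReal vB := by
    rw [hvB, ofReal_measureReal ball_fin]
  set β : ℝ := ((k : ℝ) - 1) * (q / 2 - 1) with hβ
  set s0 : ℝ := (k : ℝ) * (q / 2) - ((k : ℝ) - 1) with hs0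
  have hs01 : 1 < s0 := by
    rw [hs0]
    nlinarith
  -- the constants
  set K1 : ℝ := (CP * ((σ * Real.pi) ^ 2 * vB)) ^ (q / 2) with hK1
  have hK10 : 0 ≤ K1 := by positivity
  set K2 : ℝ := 3 ^ q * (CD ^ q * (CM + CM) + (CP * CE) ^ (q / 2) * (1 / (s0 - 1))) with hK2
  have hK20 : 0 < K2 := by
    have : 0 < s0 - 1 := by linarith
    positivity
  set SK : ℝ := (sg k).real univ with hSK
  have hSK0 : 0 < SK := Pool.Agent.H438R2.BR.T7.sg_pos (by omega)
  refine ⟨SK * (K1 + K2), by positivity, fun F hFm hF => ?_⟩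
  have hgm : Measurable fun z : E (k + m) => F (P2 k m z) := hFm.comp (P2_meas k m)
  have hTm : Measurable fun z : E (k + m) => ‖T (fun z : E (k + m) => F (P2 k m z)) z‖ₑ ^ q :=
    (T_meas' _ hgm).enorm.pow_const q
  have hJm : Measurable fun p : E k × E m => J p.1 p.2 := (J_mp k m).measurable
  -- measurability of the profile
  have hPhi : Measurable fun p : ℝ × E m => AA k F p.1 p.2 := by
    unfold AA
    have h1 : Measurable fun p : ℝ × E m => wt p.2 := (wt_meas (m := m)).comp measurable_snd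
    have h2 : Measurable fun p : ℝ × E m => Phi k (p.1 * wt p.2) :=
      (Phi_meas k).comp (measurable_fst.mul h1)
    have h3 : Measurable fun p : ℝ × E m => F p.2 := hFm.comp measurable_snd
    fun_prop
  have hFBm : Measurable fun p : ℝ × E m => FB (AA k F p.1) p.2 := by
    unfold FB
    have hpair : Measurable fun p : (ℝ × E m) × E m => ((p.1.1, p.2) : ℝ × E m) :=
      (measurable_fst.comp measurable_fst).prodMk measurable_snd
    have h3 : Measurable fun p : (ℝ × E m) × E m => AA k F p.1.1 p.2 := by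
      have h5 := Measurable.comp hPhi hpair
      exact h5
    have h4 : Measurable fun p : (ℝ × E m) × E m =>
        Complex.exp (-((⟪p.2, p.1.2⟫ : ℝ) : ℂ) * I) := by
      have h6 : Measurable fun p : (ℝ × E m) × E m => (⟪p.2, p.1.2⟫ : ℝ) :=
        measurable_snd.inner (measurable_snd.comp measurable_fst)
      exact Complex.measurable_exp.comp ((Complex.measurable_ofReal.comp h6).neg.mul_const I)
    exact ((h3.mul h4).stronglyMeasurable.integral_prod_right'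
      (ν := volume.restrict (Metric.ball (0 : E m) 1))).measurable
  set Ψ : ℝ → ℝ≥0∞ := fun r => ∫⁻ y, ‖FB (AA k F r) y‖ₑ ^ q with hΨ
  have hΨm : Measurable Ψ := (hFBm.enorm.pow_const q).lintegral_prod_right'
  have e1 : ∫⁻ z, ‖T (fun z : E (k + m) => F (P2 k m z)) z‖ₑ ^ q =
      sg k univ * ∫⁻ r in Ioi (0 : ℝ), ENNReal.ofReal (r ^ (k - 1)) * Ψ r := by
    rw [← (J_mp k m).lintegral_comp hTm, lintegral_prod]
    · rw [← Pool.Agent.H438R2.BR.T7.radial (by omega : 0 < k) Ψ hΨm]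
      refine lintegral_congr fun x => ?_
      rw [hΨ]
      refine lintegral_congr fun y => ?_
      simp only
      rw [rep k hk hm F hFm hF x y]
    · exact (hTm.comp hJm).aemeasurable
  -- small `r`
  have hsmall : ∀ r : ℝ, Ψ r ≤ ENNReal.ofReal K1 := by
    intro r
    refine (hP (AA k F r) (AA_meas k F hFm r)).trans ?_
    rw [hK1, ← ENNReal.ofReal_rpow_of_nonneg (by positivity) (by linarith),
      ENNReal.ofReal_mul hCP.le]
    gcongr
    calc ∫⁻ z in Metric.ball (0 : E m) 1, ‖AA k F r z‖ₑ ^ (2 : ℝ)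
        ≤ ∫⁻ _ in Metric.ball (0 : E m) 1, ENNReal.ofReal ((σ * Real.pi) ^ 2) := by
          apply lintegral_mono
          intro z
          simp only
          rw [enorm_sq]
          apply ENNReal.ofReal_le_ofReal
          exact pow_le_pow_left₀ (norm_nonneg _) (AA_le k hk F hF r z) 2
      _ = _ := by
          rw [setLIntegral_const, hvol, ENNReal.ofReal_mul (by positivity)]
  -- large `r`
  have hlarge : ∀ r : ℝ, 1 < r → ENNReal.ofReal (r ^ (k - 1)) * Ψ r ≤ ENNReal.ofReal (3 ^ q) *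
      (ENNReal.ofReal (CD ^ q) * (ENNReal.ofReal (r ^ (-β)) * (∫⁻ y, ‖Gf k F (-1 * r) y‖ₑ ^ q) +
        ENNReal.ofReal (r ^ (-β)) * (∫⁻ y, ‖Gf k F (1 * r) y‖ₑ ^ q)) +
        ENNReal.ofReal ((CP * CE) ^ (q / 2)) * ENNReal.ofReal (r ^ (-s0))) := by
    intro r hr
    have hr0 : 0 < r := by linarith
    have hGm : ∀ s : ℝ, Measurable fun y => ‖Gf k F s y‖ₑ ^ q := by
      intro s
      have hg := Gf_meas k F hFm
      exact (hg.comp measurable_prodMk_left).enorm.pow_const q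
    have h3 : Ψ r ≤ ENNReal.ofReal (3 ^ q) * (ENNReal.ofReal ((CD * r ^ (-((k : ℝ) - 1) / 2)) ^ q) *
        ((∫⁻ y, ‖Gf k F (-1 * r) y‖ₑ ^ q) + ∫⁻ y, ‖Gf k F (1 * r) y‖ₑ ^ q) +
        ∫⁻ y, ‖FB (EA k c F r) y‖ₑ ^ q) := by
      have h5 : ∀ y, ‖FB (AA k F r) y‖ₑ ^ q ≤ ENNReal.ofReal (3 ^ q) *
          (ENNReal.ofReal ((CD * r ^ (-((k : ℝ) - 1) / 2)) ^ q) * (‖Gf k F (-1 * r) y‖ₑ ^ q +
          ‖Gf k F (1 * r) y‖ₑ ^ q) + ‖FB (EA k c F r) y‖ₑ ^ q) := by
        intro y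
        have h6 := hD F hFm hF r hr0 y
        rw [neg_one_mul, one_mul]
        refine (ENNReal.rpow_le_rpow h6 hq0.le).trans ?_
        rw [mul_add]
        refine (three _ _ _ q hq0.le).trans (le_of_eq ?_)
        rw [ENNReal.mul_rpow_of_nonneg _ _ hq0.le, ENNReal.mul_rpow_of_nonneg _ _ hq0.le,
          ENNReal.ofReal_rpow_of_nonneg (by positivity) hq0.le,
          ← ENNReal.ofReal_rpow_of_nonneg (by norm_num : (0 : ℝ) ≤ 3) hq0.le]
        rw [show ENNReal.ofReal 3 = 3 by simp]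
        ring
      calc Ψ r ≤ ∫⁻ y, ENNReal.ofReal (3 ^ q) *
          (ENNReal.ofReal ((CD * r ^ (-((k : ℝ) - 1) / 2)) ^ q) * (‖Gf k F (-1 * r) y‖ₑ ^ q +
          ‖Gf k F (1 * r) y‖ₑ ^ q) + ‖FB (EA k c F r) y‖ₑ ^ q) := lintegral_mono h5
        _ = _ := by
          rw [lintegral_const_mul' _ _ ENNReal.ofReal_ne_top, lintegral_add_left,
            lintegral_const_mul' _ _ ENNReal.ofReal_ne_top, lintegral_add_left (hGm _)]
          exact ((hGm _).add (hGm _)).const_mul _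
    have h4 : ∫⁻ y, ‖FB (EA k c F r) y‖ₑ ^ q ≤
        ENNReal.ofReal ((CP * CE) ^ (q / 2) * r ^ (-((k : ℝ) * (q / 2)))) := by
      refine (hP (EA k c F r) (EA_meas k c F hFm r)).trans ?_
      have h7 := hE F hF r hr0
      calc (ENNReal.ofReal CP * ∫⁻ z in Metric.ball (0 : E m) 1, ‖EA k c F r z‖ₑ ^ (2 : ℝ)) ^ (q / 2)
          ≤ (ENNReal.ofReal CP * ENNReal.ofReal (CE * r ^ (-(k : ℝ)))) ^ (q / 2) := by
            gcongr
        _ = _ := by
            rw [← ENNReal.ofReal_mul hCP.le, ENNReal.ofReal_rpow_of_nonneg (by positivity)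
              (by linarith), ← mul_assoc, Real.mul_rpow (by positivity) (by positivity),
              ← Real.rpow_mul hr0.le]
            congr 3
            ring
    have e2 : r ^ (k - 1) * (CD * r ^ (-((k : ℝ) - 1) / 2)) ^ q = CD ^ q * r ^ (-β) := by
      rw [Real.mul_rpow hCD.le (by positivity), ← Real.rpow_mul hr0.le,
        ← Real.rpow_natCast r (k - 1)]
      have e3 : r ^ (((k - 1 : ℕ)) : ℝ) * r ^ (-((k : ℝ) - 1) / 2 * q) = r ^ (-β) := by
        rw [← Real.rpow_add hr0]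
        congr 1
        rw [hβ]
        push_cast [Nat.cast_sub (by omega : 1 ≤ k)]
        ring
      rw [← e3]
      ring
    have e4 : r ^ (k - 1) * ((CP * CE) ^ (q / 2) * r ^ (-((k : ℝ) * (q / 2)))) =
        (CP * CE) ^ (q / 2) * r ^ (-s0) := by
      rw [← Real.rpow_natCast r (k - 1)]
      have e3 : r ^ (((k - 1 : ℕ)) : ℝ) * r ^ (-((k : ℝ) * (q / 2))) = r ^ (-s0) := by
        rw [← Real.rpow_add hr0]
        congr 1
        rw [hs0]
        push_cast [Nat.cast_sub (by omega : 1 ≤ k)]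
        ring
      rw [← e3]
      ring
    calc ENNReal.ofReal (r ^ (k - 1)) * Ψ r ≤ ENNReal.ofReal (r ^ (k - 1)) *
          (ENNReal.ofReal (3 ^ q) * (ENNReal.ofReal ((CD * r ^ (-((k : ℝ) - 1) / 2)) ^ q) *
        ((∫⁻ y, ‖Gf k F (-1 * r) y‖ₑ ^ q) + ∫⁻ y, ‖Gf k F (1 * r) y‖ₑ ^ q) +
        ENNReal.ofReal ((CP * CE) ^ (q / 2) * r ^ (-((k : ℝ) * (q / 2)))))) := by
          gcongr
          refine h3.trans ?_
          gcongr
      _ = ENNReal.ofReal (3 ^ q) * (ENNReal.ofReal (r ^ (k - 1) *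
          (CD * r ^ (-((k : ℝ) - 1) / 2)) ^ q) *
          ((∫⁻ y, ‖Gf k F (-1 * r) y‖ₑ ^ q) + ∫⁻ y, ‖Gf k F (1 * r) y‖ₑ ^ q) +
          ENNReal.ofReal (r ^ (k - 1) * ((CP * CE) ^ (q / 2) * r ^ (-((k : ℝ) * (q / 2)))))) := by
          rw [ENNReal.ofReal_mul (by positivity : (0 : ℝ) ≤ r ^ (k - 1)),
            ENNReal.ofReal_mul (by positivity : (0 : ℝ) ≤ r ^ (k - 1))]
          ring
      _ = _ := by
          rw [e2, e4, ENNReal.ofReal_mul (by positivity), ENNReal.ofReal_mul (by positivity)]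
          ring
  have hsplit : ∫⁻ r in Ioi (0 : ℝ), ENNReal.ofReal (r ^ (k - 1)) * Ψ r ≤
      ENNReal.ofReal K1 + ENNReal.ofReal K2 := by
    have h8 : Ioi (0 : ℝ) = Ioc 0 1 ∪ Ioi 1 := (Ioc_union_Ioi_eq_Ioi zero_le_one).symm
    rw [h8]
    refine (lintegral_union_le _ _ _).trans ?_
    gcongr
    · calc ∫⁻ r in Ioc (0 : ℝ) 1, ENNReal.ofReal (r ^ (k - 1)) * Ψ r
          ≤ ∫⁻ _ in Ioc (0 : ℝ) 1, ENNReal.ofReal K1 := by
            refine setLIntegral_mono' measurableSet_Ioc fun r hr => ?_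
            calc ENNReal.ofReal (r ^ (k - 1)) * Ψ r ≤ 1 * ENNReal.ofReal K1 := by
                  gcongr
                  · rw [ENNReal.ofReal_le_one]
                    exact pow_le_one₀ hr.1.le hr.2
                  · exact hsmall r
              _ = _ := one_mul _
        _ = _ := by
            rw [setLIntegral_const, Real.volume_Ioc]
            simp
    · have hGi : ∀ s : ℝ, Measurable fun r : ℝ => ENNReal.ofReal (r ^ (-β)) *
          ∫⁻ y, ‖Gf k F (s * r) y‖ₑ ^ q := by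
        intro s
        have hg := Gf_meas k F hFm
        have hp : Measurable fun p : ℝ × E m => ((s * p.1, p.2) : ℝ × E m) :=
          (measurable_fst.const_mul s).prodMk measurable_snd
        have h3 := Measurable.comp hg hp
        have h5 := (h3.enorm.pow_const q).lintegral_prod_right' (ν := (volume : Measure (E m)))
        refine Measurable.mul (by fun_prop) ?_
        exact h5
      calc ∫⁻ r in Ioi (1 : ℝ), ENNReal.ofReal (r ^ (k - 1)) * Ψ r
          ≤ ∫⁻ r in Ioi (1 : ℝ), ENNReal.ofReal (3 ^ q) *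
      (ENNReal.ofReal (CD ^ q) * (ENNReal.ofReal (r ^ (-β)) * (∫⁻ y, ‖Gf k F (-1 * r) y‖ₑ ^ q) +
        ENNReal.ofReal (r ^ (-β)) * (∫⁻ y, ‖Gf k F (1 * r) y‖ₑ ^ q)) +
        ENNReal.ofReal ((CP * CE) ^ (q / 2)) * ENNReal.ofReal (r ^ (-s0))) :=
            setLIntegral_mono' measurableSet_Ioi fun r hr => hlarge r hr
        _ = ENNReal.ofReal (3 ^ q) * (ENNReal.ofReal (CD ^ q) *
            ((∫⁻ r in Ioi (1 : ℝ), ENNReal.ofReal (r ^ (-β)) * (∫⁻ y, ‖Gf k F (-1 * r) y‖ₑ ^ q)) +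
            ∫⁻ r in Ioi (1 : ℝ), ENNReal.ofReal (r ^ (-β)) * (∫⁻ y, ‖Gf k F (1 * r) y‖ₑ ^ q)) +
            ENNReal.ofReal ((CP * CE) ^ (q / 2)) *
              ∫⁻ r in Ioi (1 : ℝ), ENNReal.ofReal (r ^ (-s0))) := by
            rw [lintegral_const_mul' _ _ ENNReal.ofReal_ne_top, lintegral_add_left,
              lintegral_const_mul' _ _ ENNReal.ofReal_ne_top, lintegral_add_left (hGi _),
              lintegral_const_mul' _ _ ENNReal.ofReal_ne_top]
            exact ((hGi _).add (hGi _)).const_mul _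
        _ ≤ ENNReal.ofReal (3 ^ q) * (ENNReal.ofReal (CD ^ q) *
            (ENNReal.ofReal CM + ENNReal.ofReal CM) +
            ENNReal.ofReal ((CP * CE) ^ (q / 2)) * ENNReal.ofReal (1 / (s0 - 1))) := by
            gcongr
            · exact hM F hFm hF (-1) (Or.inr rfl)
            · exact hM F hFm hF 1 (Or.inl rfl)
            · exact (pow_int s0 hs01).le
        _ = _ := by
            have : 0 < s0 - 1 := by linarith
            rw [hK2, ← ENNReal.ofReal_add hCM.le hCM.le, ← ENNReal.ofReal_mul (by positivity),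
              ← ENNReal.ofReal_mul (by positivity), ← ENNReal.ofReal_add (by positivity)
              (by positivity), ← ENNReal.ofReal_mul (by positivity)]
  rw [e1]
  calc sg k univ * ∫⁻ r in Ioi (0 : ℝ), ENNReal.ofReal (r ^ (k - 1)) * Ψ r
      ≤ sg k univ * (ENNReal.ofReal K1 + ENNReal.ofReal K2) := by gcongr
    _ = _ := by
        have : IsFiniteMeasure (sg k) := Pool.Agent.H789R2.FR.sg_finite k
        rw [← ENNReal.ofReal_add hK10 hK20.le, ENNReal.ofReal_mul hSK0.le, hSK,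
          ofReal_measureReal]

end Pool.Agent.TH335.RF
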