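import Mathlib
import Pool.Agent.TH335.RF.P7
set_option autoImplicit false

/-! The upper half sphere as a graph; restriction for `S^m` gives the hypothesis. -/

namespace Pool.Agent.TH335.RF

open MeasureTheory Set Complex
open scoped ENNReal RealInnerProductSpace
open Pool.Agent.H789R2.FR (E sg T sg_finite)
open Pool.Agent.H438R2.BR (Phi J J_mp Q)
open Pool.Agent.H438R2.BR.T10 (e0 e0_norm)
open Pool.Agent.H438R2.PD (P1 P2 P1_meas P2_meas T_meas')

variable {m : ℕ}

/-- upper half space -/
def U (m : ℕ) : Set (E (1 + m)) := {z | 0 < (P1 1 m z) 0}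

/-- the point of the upper half sphere over `y` -/
noncomputable def up (y : E m) : E (1 + m) := J (wt y • e0) y

theorem co_meas (m : ℕ) : Measurable fun z : E (1 + m) => (P1 1 m z) 0 := by
  have h : Measurable fun x : E 1 => x 0 := by fun_prop
  exact h.comp (P1_meas 1 m)

theorem U_meas (m : ℕ) : MeasurableSet (U m) := measurableSet_lt measurable_const (co_meas m)

theorem up_meas : Measurable (up : E m → E (1 + m)) := by
  unfold up
  have h1 : Measurable fun p : E 1 × E m => J p.1 p.2 := (J_mp 1 m).measurable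
  have h2 : Measurable fun y : E m => ((wt y • e0, y) : E 1 × E m) :=
    (wt_meas.smul_const _).prodMk measurable_id
  exact h1.comp h2

theorem P1_J (x : E 1) (y : E m) : P1 1 m (J x y) = x := Pool.Agent.H438R2.PD.P1_J x y

theorem P2_J (x : E 1) (y : E m) : P2 1 m (J x y) = y := Pool.Agent.H438R2.PD.P2_J x y

theorem e0_zero : e0 0 = 1 := by simp [e0]

theorem co_up (y : E m) : (P1 1 m (up y)) 0 = wt y := by
  unfold up
  rw [P1_J, PiLp.smul_apply, e0_zero, smul_eq_mul, mul_one]

theorem winv_meas : Measurable fun y : E m => ENNReal.ofReal (wt y)⁻¹ := by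
  have h := wt_meas (m := m)
  have h2 : Measurable fun y : E m => (wt y)⁻¹ := h.inv
  exact h2.ennreal_ofReal

theorem graph_lint (hm : 1 ≤ m) (f : E (1 + m) → ℝ≥0∞) (hf : Measurable f) :
    ∫⁻ z in U m, f z ∂(sg (1 + m)) =
      ∫⁻ y in Metric.ball (0 : E m) 1, ENNReal.ofReal (wt y)⁻¹ * f (up y) := by
  have f1 : IsFiniteMeasure (sg m) := sg_finite _
  have hJm : Measurable fun p : E 1 × E m => J p.1 p.2 := (J_mp 1 m).measurable
  -- left side
  have hL : ∫⁻ z in U m, f z ∂(sg (1 + m)) = ∫⁻ θ in Q, ENNReal.ofReal ((Real.sin θ) ^ (m - 1)) *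
      ∫⁻ v, f (J (Real.cos θ • e0) (Real.sin θ • v)) ∂(sg m) := by
    rw [← lintegral_indicator (U_meas m),
      Pool.Agent.H438R2.BR.bipolar 1 m le_rfl hm _ (hf.indicator (U_meas m))]
    refine setLIntegral_congr_fun (by unfold Q; exact measurableSet_Ioo) fun θ hθ => ?_
    have hc := Pool.Agent.H438R2.BR.T7.cos_pos_Q hθ
    rw [Nat.sub_self, pow_zero, one_mul]
    congr 1
    rw [Pool.Agent.H438R2.BR.T10.sg_one]
    have h1 : ∀ v : E m, (U m).indicator f (J (Real.cos θ • e0) (Real.sin θ • v)) =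
        f (J (Real.cos θ • e0) (Real.sin θ • v)) := by
      intro v
      apply indicator_of_mem
      unfold U
      rw [mem_ofPred_eq, P1_J, PiLp.smul_apply, e0_zero]
      simpa using hc
    have h2 : ∀ v : E m, (U m).indicator f (J (Real.cos θ • (-e0)) (Real.sin θ • v)) = 0 := by
      intro v
      apply indicator_of_notMem
      unfold U
      rw [mem_ofPred_eq, P1_J, PiLp.smul_apply, PiLp.neg_apply, e0_zero]
      simp
      linarith
    simp only [h1, h2, lintegral_zero, add_zero]
  -- right side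
  have hR : ∫⁻ y in Metric.ball (0 : E m) 1, ENNReal.ofReal (wt y)⁻¹ * f (up y) =
      ∫⁻ v, (∫⁻ θ in Q, ENNReal.ofReal ((Real.sin θ) ^ (m - 1)) *
        f (J (Real.cos θ • e0) (Real.sin θ • v))) ∂(sg m) := by
    have hmeas : Measurable fun y : E m => ENNReal.ofReal (wt y)⁻¹ * f (up y) :=
      (winv_meas).mul (hf.comp up_meas)
    rw [← lintegral_indicator measurableSet_ball, Pool.Agent.H789R2.FR.polar (by omega) _
      (hmeas.indicator measurableSet_ball)]
    refine lintegral_congr_ae ?_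
    filter_upwards [Pool.Agent.H789R2.FR.sg_ae m] with v hv
    have h1 : ∫⁻ r in Ioi (0 : ℝ), ENNReal.ofReal (r ^ (m - 1)) *
        (Metric.ball (0 : E m) 1).indicator (fun y => ENNReal.ofReal (wt y)⁻¹ * f (up y)) (r • v) =
        ∫⁻ r in Ioo (0 : ℝ) 1, ENNReal.ofReal (r ^ (m - 1)) *
          (ENNReal.ofReal (Real.sqrt (1 - r ^ 2))⁻¹ *
            f (J (Real.sqrt (1 - r ^ 2) • e0) (r • v))) := by
      rw [← lintegral_indicator measurableSet_Ioi, ← lintegral_indicator measurableSet_Ioo]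
      refine lintegral_congr fun r => ?_
      by_cases h0 : 0 < r
      · have m0 : r ∈ Ioi (0 : ℝ) := h0
        rw [indicator_of_mem m0]
        have hn : ‖r • v‖ = r := by rw [norm_smul, hv, mul_one, Real.norm_of_nonneg h0.le]
        by_cases h1 : r < 1
        · have m1 : r ∈ Ioo (0 : ℝ) 1 := ⟨h0, h1⟩
          have m2 : r • v ∈ Metric.ball (0 : E m) 1 := by
            rw [mem_ball_zero_iff, hn]; exact h1
          rw [indicator_of_mem m1, indicator_of_mem m2]
          unfold up wt
          rw [hn]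
        · have m1 : r ∉ Ioo (0 : ℝ) 1 := fun h => h1 h.2
          have m2 : r • v ∉ Metric.ball (0 : E m) 1 := by
            rw [mem_ball_zero_iff, hn]; exact h1
          rw [indicator_of_notMem m1, indicator_of_notMem m2, mul_zero]
      · have m0 : r ∉ Ioi (0 : ℝ) := h0
        have m1 : r ∉ Ioo (0 : ℝ) 1 := fun h => h0 h.1
        rw [indicator_of_notMem m0, indicator_of_notMem m1]
    rw [h1, ← Pool.Agent.H438R2.BR.T7.sin_image,
      lintegral_image_eq_lintegral_abs_deriv_mul (f' := fun θ => Real.cos θ)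
        (by unfold Q; exact measurableSet_Ioo)
        (fun θ _ => (Real.hasDerivAt_sin θ).hasDerivWithinAt)
        Pool.Agent.H438R2.BR.T7.sin_injOn]
    refine setLIntegral_congr_fun (by unfold Q; exact measurableSet_Ioo) fun θ hθ => ?_
    have hc := Pool.Agent.H438R2.BR.T7.cos_pos_Q hθ
    have hs := Pool.Agent.H438R2.BR.T7.sin_pos_Q hθ
    have e1 : Real.sqrt (1 - Real.sin θ ^ 2) = Real.cos θ := by
      rw [← Real.cos_sq', Real.sqrt_sq hc.le]
    rw [e1, abs_of_pos hc]
    have e2 : ENNReal.ofReal (Real.cos θ) * ENNReal.ofReal (Real.cos θ)⁻¹ = 1 := by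
      rw [← ENNReal.ofReal_mul hc.le, mul_inv_cancel₀ hc.ne', ENNReal.ofReal_one]
    calc ENNReal.ofReal (Real.cos θ) * (ENNReal.ofReal (Real.sin θ ^ (m - 1)) *
          (ENNReal.ofReal (Real.cos θ)⁻¹ * f (J (Real.cos θ • e0) (Real.sin θ • v))))
        = (ENNReal.ofReal (Real.cos θ) * ENNReal.ofReal (Real.cos θ)⁻¹) *
          (ENNReal.ofReal (Real.sin θ ^ (m - 1)) * f (J (Real.cos θ • e0) (Real.sin θ • v))) := by
          ring
      _ = _ := by rw [e2, one_mul]
  rw [hL, hR]
  have hjoint : Measurable fun p : E m × ℝ => ENNReal.ofReal ((Real.sin p.2) ^ (m - 1)) *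
      f (J (Real.cos p.2 • e0) (Real.sin p.2 • p.1)) := by
    refine Measurable.mul (by fun_prop) ?_
    have h2 : Measurable fun p : E m × ℝ => ((Real.cos p.2 • e0, Real.sin p.2 • p.1) : E 1 × E m) := by
      refine Measurable.prodMk ?_ ?_
      · exact (Real.measurable_cos.comp measurable_snd).smul_const _
      · exact (Real.measurable_sin.comp measurable_snd).smul measurable_fst
    have h3 := Measurable.comp hJm h2
    exact hf.comp h3
  rw [lintegral_lintegral_swap hjoint.aemeasurable]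
  refine lintegral_congr fun θ => ?_
  rw [lintegral_const_mul' _ _ ENNReal.ofReal_ne_top]

theorem graph_measure (hm : 1 ≤ m) : (sg (1 + m)).restrict (U m) =
    ((volume.restrict (Metric.ball (0 : E m) 1)).withDensity
      fun y => ENNReal.ofReal (wt y)⁻¹).map up := by
  refine Measure.ext_of_lintegral _ fun f hf => ?_
  rw [graph_lint hm f hf, lintegral_map hf up_meas,
    lintegral_withDensity_eq_lintegral_mul _ winv_meas
      (show Measurable fun y : E m => f (up y) from hf.comp up_meas)]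
  rfl

theorem graph_int (hm : 1 ≤ m) (g : E (1 + m) → ℂ) (hg : Measurable g)
    (h0 : ∀ z, z ∉ U m → g z = 0) :
    ∫ z, g z ∂(sg (1 + m)) = ∫ y in Metric.ball (0 : E m) 1, (((wt y)⁻¹ : ℝ) : ℂ) * g (up y) := by
  rw [← setIntegral_eq_integral_of_forall_compl_eq_zero (s := U m) h0, graph_measure hm,
    integral_map up_meas.aemeasurable hg.aestronglyMeasurable,
    integral_withDensity_eq_integral_toReal_smul winv_meas
      (Filter.Eventually.of_forall fun _ => ENNReal.ofReal_lt_top)]
  refine setIntegral_congr_fun measurableSet_ball fun y hy => ?_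
  rw [ENNReal.toReal_ofReal (inv_nonneg.2 (wt_nonneg y)), Complex.real_smul]

/-- the density on the upper half sphere -/
noncomputable def gu (k : ℕ) (F : E m → ℂ) : E (1 + m) → ℂ :=
  {z : E (1 + m) | 0 < (P1 1 m z) 0 ∧ (P1 1 m z) 0 ≤ 1}.indicator fun z =>
    (((((P1 1 m z) 0) ^ (((k : ℝ) - 1) / 2)) : ℝ) : ℂ) * F (P2 1 m z)

theorem gu_meas (k : ℕ) (F : E m → ℂ) (hF : Measurable F) : Measurable (gu k F) := by
  unfold gu
  have h1 := co_meas m
  refine Measurable.indicator ?_ ((measurableSet_lt measurable_const h1).inter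
    (measurableSet_le h1 measurable_const))
  exact (h1.pow_const _).complex_ofReal.mul (hF.comp (P2_meas 1 m))

theorem gu_le (k : ℕ) (hk : 2 ≤ k) (F : E m → ℂ) (hF : ∀ y, ‖F y‖ ≤ 1) (z : E (1 + m)) :
    ‖gu k F z‖ ≤ 1 := by
  have hk' : (2 : ℝ) ≤ k := by exact_mod_cast hk
  unfold gu
  by_cases hz : z ∈ {z : E (1 + m) | 0 < (P1 1 m z) 0 ∧ (P1 1 m z) 0 ≤ 1}
  · rw [indicator_of_mem hz, norm_mul, Complex.norm_real, Real.norm_of_nonneg
      (Real.rpow_nonneg hz.1.le _)]
    exact mul_le_one₀ (Real.rpow_le_one hz.1.le hz.2 (by linarith)) (norm_nonneg _) (hF _)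
  · rw [indicator_of_notMem hz, norm_zero]
    exact zero_le_one

theorem T_gu (k : ℕ) (hm : 1 ≤ m) (F : E m → ℂ) (hFm : Measurable F)
    (r : ℝ) (y : E m) : T (gu k F) (J (r • e0) y) = Gf k F r y := by
  unfold T
  have hmeas : Measurable fun z : E (1 + m) =>
      Complex.exp (-((⟪J (r • e0) y, z⟫ : ℝ) : ℂ) * I) * gu k F z := by
    have h1 : Measurable fun z : E (1 + m) => (⟪J (r • e0) y, z⟫ : ℝ) := by fun_prop
    exact (Complex.measurable_exp.comp ((Complex.measurable_ofReal.comp h1).neg.mul_const I)).mul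
      (gu_meas k F hFm)
  rw [graph_int hm _ hmeas]
  · unfold Gf FB
    refine setIntegral_congr_fun measurableSet_ball fun y' hy' => ?_
    have hw := wt_pos hy'
    have hmem : up y' ∈ {z : E (1 + m) | 0 < (P1 1 m z) 0 ∧ (P1 1 m z) 0 ≤ 1} := by
      rw [mem_ofPred_eq, co_up]
      exact ⟨hw, wt_le_one y'⟩
    have hin : (⟪J (r • e0) y, up y'⟫ : ℝ) = r * wt y' + ⟪y', y⟫ := by
      unfold up
      rw [Pool.Agent.H438R2.BR.J_inner, real_inner_smul_left, real_inner_smul_right,
        real_inner_self_eq_norm_sq, e0_norm, real_inner_comm]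
      ring
    unfold gu MA
    rw [indicator_of_mem hmem, co_up, hin]
    have hP2 : P2 1 m (up y') = y' := by
      unfold up
      rw [P2_J]
    rw [hP2]
    have e1 : (wt y')⁻¹ * wt y' ^ (((k : ℝ) - 1) / 2) = wt y' ^ (((k : ℝ) - 3) / 2) := by
      rw [← Real.rpow_neg_one, ← Real.rpow_add hw]
      congr 1
      ring
    have e2 : ((((wt y')⁻¹ : ℝ)) : ℂ) * ((wt y' ^ (((k : ℝ) - 1) / 2) : ℝ) : ℂ) =
        ((wt y' ^ (((k : ℝ) - 3) / 2) : ℝ) : ℂ) := by exact_mod_cast e1
    have e3 : Complex.exp (-((r * wt y' + ⟪y', y⟫ : ℝ) : ℂ) * I) =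
        Complex.exp (((-(r * wt y') : ℝ) : ℂ) * I) * Complex.exp (-((⟪y', y⟫ : ℝ) : ℂ) * I) := by
      rw [← Complex.exp_add]
      congr 1
      push_cast
      ring
    rw [e3, ← e2]
    ring
  · intro z hz
    unfold gu
    rw [indicator_of_notMem, mul_zero]
    intro h
    exact hz h.1

end Pool.Agent.TH335.RF
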