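import Mathlib
import Pool.Agent.TH335.RF.P9
import Pool.Agent.H789R2.FR.E4
set_option autoImplicit false

/-! One rough coordinate: the planar estimate. -/

namespace Pool.Agent.TH335.RF

open MeasureTheory Set Complex
open scoped ENNReal RealInnerProductSpace
open Pool.Agent.H789R2.FR (E sg T sg_finite sc band Ex)
open Pool.Agent.H438R2.BR.T10 (e0 e0_norm)

theorem sc_meas' : Measurable sc := by
  unfold sc
  exact Measurable.sqrt (by fun_prop)

/-- the planar density -/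
noncomputable def bb (k : ℕ) (F : E 1 → ℂ) (c : ℝ) : ℂ :=
  ((sc c ^ (((k : ℝ) - 3) / 2) : ℝ) : ℂ) * F (c • e0)

theorem bb_meas (k : ℕ) (F : E 1 → ℂ) (hF : Measurable F) : Measurable (bb k F) := by
  unfold bb
  have h1 : Measurable fun c : ℝ => F (c • e0) := hF.comp (measurable_id.smul_const e0)
  exact (sc_meas'.pow_const _).complex_ofReal.mul h1

theorem wt_line (c : ℝ) : wt (c • e0) = sc c := by
  unfold wt sc
  rw [norm_smul, e0_norm, mul_one, Real.norm_eq_abs, sq_abs]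

theorem Gf_Ex (k : ℕ) (F : E 1 → ℂ) (hF : Measurable F) (r z : ℝ) :
    Gf k F r (z • e0) = Ex (bb k F) r z := by
  unfold Gf FB Ex
  have hm : Measurable fun y' : E 1 => (Metric.ball (0 : E 1) 1).indicator
      (fun y' => MA k F r y' * Complex.exp (-((⟪y', z • e0⟫ : ℝ) : ℂ) * I)) y' := by
    refine Measurable.indicator ?_ measurableSet_ball
    have h1 : Measurable fun y' : E 1 => (⟪y', z • e0⟫ : ℝ) := by fun_prop
    exact (MA_meas k F hF r).mul
      (Complex.measurable_exp.comp ((Complex.measurable_ofReal.comp h1).neg.mul_const I))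
  rw [← integral_indicator measurableSet_ball, ← integral_indicator measurableSet_Ioo,
    ← line_mp.map_eq, integral_map line_mp.measurable.aemeasurable hm.aestronglyMeasurable]
  refine integral_congr_ae (Filter.Eventually.of_forall fun c => ?_)
  simp only
  have hn : ‖c • e0‖ = |c| := by rw [norm_smul, e0_norm, mul_one, Real.norm_eq_abs]
  by_cases hc : c ∈ Ioo (-1 : ℝ) 1
  · have m1 : c • e0 ∈ Metric.ball (0 : E 1) 1 := by
      rw [mem_ball_zero_iff, hn, abs_lt]; exact hc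
    rw [indicator_of_mem m1, indicator_of_mem hc]
    unfold MA bb
    rw [wt_line, real_inner_smul_left, real_inner_smul_right, real_inner_self_eq_norm_sq, e0_norm]
    have e3 : Complex.exp (-((r * sc c + z * c : ℝ) : ℂ) * I) =
        Complex.exp (((-(r * sc c) : ℝ) : ℂ) * I) *
        Complex.exp (-((c * (z * 1 ^ 2) : ℝ) : ℂ) * I) := by
      rw [← Complex.exp_add]
      congr 1
      push_cast
      ring
    rw [e3]
    ring
  · have m1 : c • e0 ∉ Metric.ball (0 : E 1) 1 := by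
      rw [mem_ball_zero_iff, hn, abs_lt]; exact hc
    rw [indicator_of_notMem m1, indicator_of_notMem hc]

/-- dyadic band -/
def bd (j : ℕ) : Set ℝ := band ((1 / 2 : ℝ) ^ j)

theorem bd_meas (j : ℕ) : MeasurableSet (bd j) := by
  unfold bd band
  have h := sc_meas'
  exact (measurableSet_lt (f := fun c : ℝ => |c|) continuous_abs.measurable
    measurable_const).inter
    ((measurableSet_lt measurable_const h).inter (measurableSet_le h measurable_const))

theorem sc_pos {c : ℝ} (hc : c ∈ Ioo (-1 : ℝ) 1) : 0 < sc c := by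
  unfold sc
  apply Real.sqrt_pos.2
  nlinarith [hc.1, hc.2]

theorem sc_le (c : ℝ) : sc c ≤ 1 := by
  unfold sc
  rw [Real.sqrt_le_one]
  nlinarith [sq_nonneg c]

theorem exists_bd {c : ℝ} (hc : c ∈ Ioo (-1 : ℝ) 1) : ∃ j, c ∈ bd j ∧ ∀ i, i ≠ j → c ∉ bd i := by
  have h0 := sc_pos hc
  obtain ⟨j, hj1, hj2⟩ := exists_nat_pow_near_of_lt_one (x := sc c) h0 (sc_le c)
    (by norm_num : (0 : ℝ) < 1 / 2) (by norm_num : (1 / 2 : ℝ) < 1)
  refine ⟨j, ⟨abs_lt.2 hc, ?_, hj2⟩, fun i hi h => ?_⟩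
  · rw [pow_succ] at hj1
    linarith
  · obtain ⟨_, h1, h2⟩ := h
    rcases lt_or_gt_of_ne hi with h3 | h3
    · -- i < j
      have h4 : (1 / 2 : ℝ) ^ j ≤ (1 / 2) ^ (i + 1) :=
        pow_le_pow_of_le_one (by norm_num) (by norm_num) (by omega)
      rw [pow_succ] at h4
      linarith
    · have h4 : (1 / 2 : ℝ) ^ i ≤ (1 / 2) ^ (j + 1) :=
        pow_le_pow_of_le_one (by norm_num) (by norm_num) (by omega)
      linarith

theorem bb_le (k : ℕ) (hk : 2 ≤ k) (F : E 1 → ℂ) (hF : ∀ y, ‖F y‖ ≤ 1) {c : ℝ}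
    (hc : c ∈ Ioo (-1 : ℝ) 1) : ‖bb k F c‖ ≤ sc c ^ (-(1 / 2) : ℝ) := by
  have hk' : (2 : ℝ) ≤ k := by exact_mod_cast hk
  have h0 := sc_pos hc
  unfold bb
  rw [norm_mul, Complex.norm_real, Real.norm_of_nonneg (Real.rpow_nonneg h0.le _)]
  have h1 : sc c ^ (((k : ℝ) - 3) / 2) ≤ sc c ^ (-(1 / 2) : ℝ) :=
    Real.rpow_le_rpow_of_exponent_ge h0 (sc_le c) (by linarith)
  calc sc c ^ (((k : ℝ) - 3) / 2) * ‖F (c • e0)‖ ≤ sc c ^ (-(1 / 2) : ℝ) * 1 :=
        mul_le_mul h1 (hF _) (norm_nonneg _) (Real.rpow_nonneg h0.le _)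
    _ = _ := mul_one _

/-- the piece on a band -/
noncomputable def bj (k : ℕ) (F : E 1 → ℂ) (j : ℕ) : ℝ → ℂ := (bd j).indicator (bb k F)

theorem bj_meas (k : ℕ) (F : E 1 → ℂ) (hF : Measurable F) (j : ℕ) : Measurable (bj k F j) :=
  (bb_meas k F hF).indicator (bd_meas j)

theorem bj_le (k : ℕ) (hk : 2 ≤ k) (F : E 1 → ℂ) (hF : ∀ y, ‖F y‖ ≤ 1) (j : ℕ) (c : ℝ) :
    ‖bj k F j c‖ ≤ ((1 / 2 : ℝ) ^ j / 2) ^ (-(1 / 2) : ℝ) := by
  unfold bj
  by_cases hc : c ∈ bd j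
  · rw [indicator_of_mem hc]
    have hc1 : c ∈ Ioo (-1 : ℝ) 1 := abs_lt.1 hc.1
    refine (bb_le k hk F hF hc1).trans ?_
    exact Real.rpow_le_rpow_of_nonpos (by positivity) hc.2.1.le (by norm_num)
  · rw [indicator_of_notMem hc, norm_zero]
    positivity

theorem piece_bound : ∃ C : ℝ, 0 < C ∧ ∀ (k : ℕ), 2 ≤ k → ∀ (F : E 1 → ℂ), Measurable F →
    (∀ y, ‖F y‖ ≤ 1) → ∀ (j : ℕ) (Y : ℝ), 1 ≤ Y →
    ∫⁻ y in Icc (-Y) Y, ∫⁻ z : ℝ, ‖Ex (bj k F j) y z‖ₑ ^ (4 : ℝ) ≤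
      ENNReal.ofReal (C * ((1 / 2 : ℝ) ^ j) ^ 3 * (1 + Real.log Y)) := by
  obtain ⟨C, hC, h⟩ := Pool.Agent.H789R2.FR.E4
  refine ⟨4 * C, by positivity, fun k hk F hFm hF j Y hY => ?_⟩
  set μ : ℝ := (1 / 2 : ℝ) ^ j with hμ
  have hμ0 : 0 < μ := by positivity
  have hμ1 : μ ≤ 1 := pow_le_one₀ (by norm_num) (by norm_num)
  have hlogY : 0 ≤ Real.log Y := Real.log_nonneg hY
  have e1 : ∀ w : ℂ, ‖w‖ₑ ^ (4 : ℝ) = ENNReal.ofReal (‖w‖ ^ 4) := by
    intro w
    rw [← ofReal_norm, ENNReal.ofReal_rpow_of_nonneg (norm_nonneg _) (by norm_num)]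
    norm_num
  simp only [e1]
  have hB : ((μ / 2) ^ (-(1 / 2) : ℝ)) ^ 4 = 4 * μ⁻¹ ^ 2 := by
    rw [← Real.rpow_natCast, ← Real.rpow_mul (by positivity)]
    norm_num
    field_simp
    norm_num
  have key : ∀ Y' : ℝ, 1 ≤ Y' * μ →
      ∫⁻ y in Icc (-Y') Y', ∫⁻ z : ℝ, ENNReal.ofReal (‖Ex (bj k F j) y z‖ ^ 4) ≤
      ENNReal.ofReal (4 * C * μ ^ 3 * (1 + Real.log (Y' * μ))) := by
    intro Y' hY'
    refine (h μ hμ0 hμ1 Y' hY' (bj k F j) (bj_meas k F hFm j) _ (bj_le k hk F hF j)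
      (fun c hc => ?_)).trans (le_of_eq ?_)
    · unfold bj
      exact indicator_of_notMem hc _
    · congr 1
      rw [← hμ, hB]
      field_simp
  by_cases hc : 1 ≤ Y * μ
  · refine (key Y hc).trans ?_
    apply ENNReal.ofReal_le_ofReal
    have h2 : Real.log (Y * μ) ≤ Real.log Y :=
      Real.log_le_log (by positivity) (by nlinarith)
    gcongr
  · have h3 : Y ≤ 1 / μ := by
      rw [le_div_iff₀ hμ0]
      linarith
    have h4 : (1 / μ) * μ = 1 := by field_simp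
    refine le_trans ?_ ((key (1 / μ) (by rw [h4])).trans ?_)
    · exact lintegral_mono_set (Icc_subset_Icc (by linarith) h3)
    · apply ENNReal.ofReal_le_ofReal
      rw [h4, Real.log_one]
      gcongr

/-- sum over the bands -/
theorem Ex_le (k : ℕ) (hk : 2 ≤ k) (F : E 1 → ℂ) (hFm : Measurable F)
    (hF : ∀ y, ‖F y‖ ≤ 1) (y z : ℝ) :
    ‖Ex (bb k F) y z‖ₑ ≤ ∑' j, ‖Ex (bj k F j) y z‖ₑ := by
  have hm : ∀ j, Measurable fun c : ℝ =>
      Complex.exp (-((y * sc c + z * c : ℝ) : ℂ) * I) * bj k F j c := by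
    intro j
    have := bj_meas k F hFm j
    have := sc_meas'
    fun_prop
  have h1 : Ex (bb k F) y z = ∫ c in Ioo (-1 : ℝ) 1, ∑' j,
      Complex.exp (-((y * sc c + z * c : ℝ) : ℂ) * I) * bj k F j c := by
    unfold Ex
    refine setIntegral_congr_fun measurableSet_Ioo fun c hc => ?_
    obtain ⟨j, hj, hi⟩ := exists_bd hc
    rw [tsum_eq_single j]
    · unfold bj
      rw [indicator_of_mem hj]
    · intro i hij
      unfold bj
      rw [indicator_of_notMem (hi i hij), mul_zero]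
  have hnorm : ∀ j c, ‖Complex.exp (-((y * sc c + z * c : ℝ) : ℂ) * I) * bj k F j c‖ₑ =
      ‖bj k F j c‖ₑ := by
    intro j c
    rw [enorm_mul]
    have : ‖Complex.exp (-((y * sc c + z * c : ℝ) : ℂ) * I)‖ₑ = 1 := by
      rw [show -((y * sc c + z * c : ℝ) : ℂ) * I = ((-(y * sc c + z * c) : ℝ) : ℂ) * I by
        push_cast; ring, ← ofReal_norm, Complex.norm_exp_ofReal_mul_I, ENNReal.ofReal_one]
    rw [this, one_mul]
  have hsum : ∑' j, ∫⁻ c in Ioo (-1 : ℝ) 1,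
      ‖Complex.exp (-((y * sc c + z * c : ℝ) : ℂ) * I) * bj k F j c‖ₑ ≠ ⊤ := by
    simp only [hnorm]
    rw [← lintegral_tsum (fun j => (bj_meas k F hFm j).enorm.aemeasurable)]
    have h2 : ∫⁻ c in Ioo (-1 : ℝ) 1, ∑' j, ‖bj k F j c‖ₑ ≤
        ∫⁻ c in Ioo (-1 : ℝ) 1, ENNReal.ofReal ((1 - c ^ 2) ^ (-(1 / 2) : ℝ)) := by
      refine setLIntegral_mono' measurableSet_Ioo fun c hc => ?_
      obtain ⟨j, hj, hi⟩ := exists_bd hc
      rw [tsum_eq_single j]
      · unfold bj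
        rw [indicator_of_mem hj, ← ofReal_norm]
        apply ENNReal.ofReal_le_ofReal
        refine (bb_le k hk F hF hc).trans ?_
        have h3 : 0 < 1 - c ^ 2 := by nlinarith [hc.1, hc.2]
        have h4 : (1 - c ^ 2) ^ (-(1 / 2) : ℝ) = sc c ^ (-1 : ℝ) := by
          unfold sc
          rw [Real.sqrt_eq_rpow, ← Real.rpow_mul h3.le]
          norm_num
        rw [h4]
        exact Real.rpow_le_rpow_of_exponent_ge (sc_pos hc) (sc_le c) (by norm_num)
      · intro i hij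
        unfold bj
        rw [indicator_of_notMem (hi i hij), enorm_zero]
    refine (h2.trans_lt ?_).ne
    have h5 := Pool.Agent.H438R2.BR.arcsin_int.1
    have h6 := h5.2
    rw [hasFiniteIntegral_iff_norm] at h6
    refine lt_of_le_of_lt ?_ h6
    apply lintegral_mono
    intro c
    simp only
    exact ENNReal.ofReal_le_ofReal (le_abs_self _)
  rw [h1, integral_tsum (fun j => (hm j).aestronglyMeasurable) hsum]
  have h7 : ∀ j, ∫ c in Ioo (-1 : ℝ) 1,
      Complex.exp (-((y * sc c + z * c : ℝ) : ℂ) * I) * bj k F j c = Ex (bj k F j) y z :=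
    fun j => rfl
  simp only [h7]
  exact enorm_tsum_le_tsum_enorm

end Pool.Agent.TH335.RF
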